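import Mathlib
import Pool.Agent.R582.Rand.Prod

set_option autoImplicit false

/-!
# Random series all of whose given subseries diverge
-/

namespace Pool.Agent.R582.SS

open Set Filter MeasureTheory Topology ProbabilityTheory
open scoped ENNReal
open Pool.Agent.R582.Rand (coins coins_cyl)

open Classical in
/-- The subseries `∑ a i`, `i ∈ X`, converges. -/
def SubConv (X : Set ℕ) (a : ℕ → ℚ) : Prop :=
  ∃ l : ℝ, Tendsto (fun n => ∑ i ∈ (Finset.range n).filter (· ∈ X), (a i : ℝ)) atTop (𝓝 l)

/-- The series `∑ a i` converges conditionally. -/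
def CondConv (a : ℕ → ℚ) : Prop :=
  (∃ l : ℝ, Tendsto (fun n => ∑ i ∈ Finset.range n, (a i : ℝ)) atTop (𝓝 l)) ∧
    ¬ Summable fun i => |(a i : ℝ)|

/-- a bit as a number -/
def u (b : ℕ → Bool) (i : ℕ) : ℚ := if b i = true then 1 else 0

/-- the series -/
def ser (c : ℕ → ℚ) (b : ℕ → Bool) (i : ℕ) : ℚ := c i * (u b (i + 1) - u b i)

/-- a change of the set between `j` and `j + 1` -/
def tr (X : Set ℕ) (j : ℕ) : Prop := ¬ (j ∈ X ↔ j + 1 ∈ X)

theorem ser_conv {c : ℕ → ℚ} (hc : Antitone c) (hc0 : Tendsto (fun n => (c n : ℝ)) atTop (𝓝 0))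
    (b : ℕ → Bool) : ∃ l : ℝ, Tendsto (fun n => ∑ i ∈ Finset.range n, (ser c b i : ℝ)) atTop (𝓝 l) := by
  have h := Antitone.cauchySeq_series_mul_of_tendsto_zero_of_bounded (f := fun n => (c n : ℝ))
    (z := fun i => ((u b (i + 1) : ℚ) : ℝ) - ((u b i : ℚ) : ℝ)) (b := 1)
    (fun i j hij => by
      change ((c j : ℚ) : ℝ) ≤ ((c i : ℚ) : ℝ)
      exact_mod_cast hc hij) hc0 (fun n => by
      rw [Finset.sum_range_sub (fun i => ((u b i : ℚ) : ℝ)), Real.norm_eq_abs]
      unfold u
      split_ifs <;> simp)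
  obtain ⟨l, hl⟩ := cauchySeq_tendsto_of_complete h
  refine ⟨l, hl.congr fun n => Finset.sum_congr rfl fun i _ => ?_⟩
  simp [ser, smul_eq_mul]

theorem subConv_of_summable {a : ℕ → ℚ} (h : Summable fun i => |(a i : ℝ)|) (X : Set ℕ) :
    SubConv X a := by
  classical
  have h1 : Summable fun i => if i ∈ X then (a i : ℝ) else 0 := by
    refine Summable.of_norm_bounded h fun i => ?_
    split_ifs
    · exact le_rfl
    · simp
  refine ⟨_, h1.hasSum.tendsto_sum_nat.congr fun n => ?_⟩
  rw [Finset.sum_filter]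

section jump

variable {X : Set ℕ} {b : ℕ → Bool} {s : ℕ}

open Classical in
theorem jump_sum (e : ℕ) (h : ∀ j, s ≤ j → j < s + e → tr X j → (b (j + 1) = true ↔ j + 1 ∉ X)) :
    ∑ i ∈ Finset.Ico s (s + e), (if i ∈ X then u b (i + 1) - u b i else 0) =
      (((Finset.Ico s (s + e)).filter fun j => j ∈ X ∧ j + 1 ∉ X).card : ℚ) +
        (if s + e ∈ X then u b (s + e) else 0) - (if s ∈ X then u b s else 0) := by
  induction e with
  | zero => simp
  | succ e ih =>
    have ih' := ih fun j h1 h2 => h j h1 (by omega)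
    rw [← Nat.add_assoc, Finset.sum_Ico_succ_top (by omega), ih',
      ← Finset.insert_Ico_right_eq_Ico_add_one (by omega), Finset.filter_insert]
    have hb := h (s + e) (by omega) (by omega)
    have hni : s + e ∉ (Finset.Ico s (s + e)).filter fun j => j ∈ X ∧ j + 1 ∉ X := by simp
    by_cases h1 : s + e ∈ X <;> by_cases h2 : s + e + 1 ∈ X
    · simp only [h1, h2, if_true, not_true_eq_false, and_false, if_false]
      ring
    · have h3 : u b (s + e + 1) = 1 := if_pos ((hb (by unfold tr; tauto)).2 h2)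
      simp only [h1, h2, if_true, not_false_eq_true, and_self, if_false,
        Finset.card_insert_of_notMem hni]
      rw [h3]
      push_cast
      ring
    · have h3 : u b (s + e + 1) = 0 := if_neg fun h4 => (hb (by unfold tr; tauto)).1 h4 h2
      simp only [h1, h2, if_true, false_and, if_false]
      rw [h3]
      ring
    · simp only [h1, h2, false_and, if_false]
      ring

open Classical in
theorem jump_card (e : ℕ) :
    (((Finset.Ico s (s + e)).filter fun j => tr X j).card : ℚ) =
      2 * ((Finset.Ico s (s + e)).filter fun j => j ∈ X ∧ j + 1 ∉ X).card +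
        (if s + e ∈ X then 1 else 0) - (if s ∈ X then 1 else 0) := by
  induction e with
  | zero => simp
  | succ e ih =>
    rw [← Nat.add_assoc, ← Finset.insert_Ico_right_eq_Ico_add_one (by omega), Finset.filter_insert,
      Finset.filter_insert]
    have hni : s + e ∉ (Finset.Ico s (s + e)).filter fun j => j ∈ X ∧ j + 1 ∉ X := by simp
    have hni' : s + e ∉ (Finset.Ico s (s + e)).filter fun j => tr X j := by simp
    by_cases h1 : s + e ∈ X <;> by_cases h2 : s + e + 1 ∈ X
    · have h3 : ¬ tr X (s + e) := by unfold tr; tauto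
      simp only [h1, h2, h3, if_true, not_true_eq_false, and_false, if_false] at ih ⊢
      linarith
    · have h3 : tr X (s + e) := by unfold tr; tauto
      simp only [h1, h2, h3, if_true, not_false_eq_true, and_self, if_false,
        Finset.card_insert_of_notMem hni, Finset.card_insert_of_notMem hni'] at ih ⊢
      push_cast
      linarith
    · have h3 : tr X (s + e) := by unfold tr; tauto
      simp only [h1, h2, h3, if_true, false_and, if_false,
        Finset.card_insert_of_notMem hni'] at ih ⊢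
      push_cast
      linarith
    · have h3 : ¬ tr X (s + e) := by unfold tr; tauto
      simp only [h1, h2, h3, false_and, if_false] at ih ⊢
      linarith

open Classical in
/-- the partial sum jumps -/
theorem jump {e n : ℕ} {c : ℕ → ℚ} (hse : s ≤ e) (hc : ∀ i, s ≤ i → i < e → c i = 1 / ((n : ℚ) + 1))
    (h : ∀ j, s ≤ j → j < e → tr X j → (b (j + 1) = true ↔ j + 1 ∉ X))
    (hcard : ((Finset.Ico s e).filter fun j => tr X j).card = 2 * n + 5) :
    1 ≤ (∑ i ∈ (Finset.range e).filter (· ∈ X), (ser c b i : ℝ)) -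
      ∑ i ∈ (Finset.range s).filter (· ∈ X), (ser c b i : ℝ) := by
  obtain ⟨e, rfl⟩ := Nat.exists_eq_add_of_le hse
  have h1 := jump_sum e h
  have h2 := jump_card (X := X) (s := s) e
  rw [hcard] at h2
  have h3 : ∑ i ∈ (Finset.range (s + e)).filter (· ∈ X), (ser c b i : ℝ) -
      ∑ i ∈ (Finset.range s).filter (· ∈ X), (ser c b i : ℝ) =
      ((∑ i ∈ Finset.Ico s (s + e), (if i ∈ X then ser c b i else 0) : ℚ) : ℝ) := by
    rw [Finset.sum_filter, Finset.sum_filter, ← Finset.sum_range_add_sum_Ico _ hse]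
    push_cast
    rw [add_sub_cancel_left]
    exact Finset.sum_congr rfl fun i _ => by split_ifs <;> simp
  rw [h3]
  have h4 : ∑ i ∈ Finset.Ico s (s + e), (if i ∈ X then ser c b i else 0) =
      1 / ((n : ℚ) + 1) * ∑ i ∈ Finset.Ico s (s + e), (if i ∈ X then u b (i + 1) - u b i else 0) := by
    rw [Finset.mul_sum]
    refine Finset.sum_congr rfl fun i hi => ?_
    rw [Finset.mem_Ico] at hi
    unfold ser
    rw [hc i hi.1 hi.2]
    split_ifs <;> simp
  have h5 : (n : ℚ) + 1 ≤ ∑ i ∈ Finset.Ico s (s + e), (if i ∈ X then u b (i + 1) - u b i else 0) := by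
    rw [h1]
    have h6 : (if s ∈ X then u b s else 0) ≤ 1 := by
      unfold u; split_ifs <;> simp
    have h7 : 0 ≤ (if s + e ∈ X then u b (s + e) else 0) := by
      unfold u; split_ifs <;> simp
    have h8 : (if s + e ∈ X then (1 : ℚ) else 0) ≤ 1 := by split_ifs <;> simp
    have h9 : 0 ≤ (if s ∈ X then (1 : ℚ) else 0) := by split_ifs <;> simp
    push_cast at h2
    linarith
  have h6 : (1 : ℚ) ≤ ∑ i ∈ Finset.Ico s (s + e), (if i ∈ X then ser c b i else 0) := by
    rw [h4, one_div, inv_mul_eq_div, le_div_iff₀ (by positivity), one_mul]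
    exact h5
  exact_mod_cast h6

end jump

theorem coins_fin (F : Finset ℕ) (y : ℕ → Bool) :
    coins ℕ {x | ∀ i ∈ F, x i = y i} = (2⁻¹ : ℝ≥0∞) ^ F.card := by
  have h := coins_cyl (fun i : Fin F.card => ((F.equivFin.symm i : F) : ℕ))
    (Subtype.val_injective.comp F.equivFin.symm.injective) (fun i => y (F.equivFin.symm i : F))
  rw [← h]
  congr 1
  ext x
  constructor
  · intro hx i
    exact hx _ (F.equivFin.symm i).2
  · intro hx i hi
    have := hx (F.equivFin ⟨i, hi⟩)
    simpa using this

theorem meas_fin (F : Finset ℕ) (y : ℕ → Bool) : MeasurableSet {x : ℕ → Bool | ∀ i ∈ F, x i = y i} := by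
  have h : {x : ℕ → Bool | ∀ i ∈ F, x i = y i} = ⋂ i ∈ F, {x | x i = y i} := by
    ext x; simp
  rw [h]
  refine Finset.measurableSet_biInter _ fun i _ => ?_
  have h : Measurable fun x : ℕ → Bool => x i := measurable_pi_apply _
  exact h (measurableSet_singleton (y i))

end Pool.Agent.R582.SS
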