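import Mathlib
import Pool.Agent.R582.SS.Series

set_option autoImplicit false

/-!
# Almost all series of a certain kind have a divergent subseries
-/

namespace Pool.Agent.R582.SS

open Set Filter MeasureTheory Topology ProbabilityTheory
open scoped ENNReal
open Pool.Agent.R582.Rand (coins coins_cyl)

theorem tr_infinite {X : Set ℕ} (hX : X.Infinite) (hX' : Xᶜ.Infinite) :
    (Set.ofPred (tr X)).Infinite := by
  intro hf
  obtain ⟨M, hM⟩ := hf.bddAbove
  have h1 : ∀ j, M + 1 ≤ j → (j ∈ X ↔ j + 1 ∈ X) := by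
    intro j hj
    by_contra hcon
    have := hM (show j ∈ Set.ofPred (tr X) from hcon)
    omega
  have h2 : ∀ i, M + 1 + i ∈ X ↔ M + 1 ∈ X := by
    intro i
    induction i with
    | zero => exact Iff.rfl
    | succ i ih => rw [← ih, ← Nat.add_assoc]; exact (h1 _ (by omega)).symm
  by_cases h3 : M + 1 ∈ X
  · refine hX' ((Finset.range (M + 1)).finite_toSet.subset fun j hj => ?_)
    rw [Finset.mem_coe, Finset.mem_range]
    by_contra hcon
    obtain ⟨i, rfl⟩ := Nat.exists_eq_add_of_le (not_lt.1 hcon)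
    exact hj ((h2 i).2 h3)
  · refine hX ((Finset.range (M + 1)).finite_toSet.subset fun j hj => ?_)
    rw [Finset.mem_coe, Finset.mem_range]
    by_contra hcon
    obtain ⟨i, rfl⟩ := Nat.exists_eq_add_of_le (not_lt.1 hcon)
    exact h3 ((h2 i).1 hj)

open Classical in
/-- a group of `L` changes -/
noncomputable def F (X : Set ℕ) (l L : ℕ) : Finset ℕ :=
  ((Finset.Ico (Nat.nth (tr X) l) (Nat.nth (tr X) (l + L))).filter fun j => tr X j).image (· + 1)

open Classical in
theorem card_win {X : Set ℕ} (hX : (Set.ofPred (tr X)).Infinite) (l L : ℕ) :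
    ((Finset.Ico (Nat.nth (tr X) l) (Nat.nth (tr X) (l + L))).filter fun j => tr X j).card = L := by
  have hle : Nat.nth (tr X) l ≤ Nat.nth (tr X) (l + L) :=
    (Nat.nth_strictMono hX).monotone (Nat.le_add_right _ _)
  have h1 := Nat.count_nth_of_infinite hX l
  have h2 := Nat.count_nth_of_infinite hX (l + L)
  rw [Nat.count_eq_card_filter_range, Finset.card_filter] at h1 h2
  rw [← Finset.sum_range_add_sum_Ico _ hle, h1] at h2
  rw [Finset.card_filter]
  exact Nat.add_left_cancel h2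

theorem card_F {X : Set ℕ} (hX : (Set.ofPred (tr X)).Infinite) (l L : ℕ) : (F X l L).card = L := by
  classical
  unfold F
  rw [Finset.card_image_of_injective _ (fun a b h => Nat.succ.inj h), card_win hX]

theorem mem_F {X : Set ℕ} {l L i : ℕ} (h : i ∈ F X l L) :
    ∃ j, i = j + 1 ∧ Nat.nth (tr X) l ≤ j ∧ j < Nat.nth (tr X) (l + L) := by
  classical
  unfold F at h
  rw [Finset.mem_image] at h
  obtain ⟨j, hj, rfl⟩ := h
  rw [Finset.mem_filter, Finset.mem_Ico] at hj
  exact ⟨j, rfl, hj.1.1, hj.1.2⟩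

/-- the level of `i` -/
def lev (k : ℕ → ℕ) (i : ℕ) : ℕ := Nat.findGreatest (fun n => k n ≤ i) i

/-- the coefficients -/
def co (k : ℕ → ℕ) (i : ℕ) : ℚ := 1 / ((lev k i : ℚ) + 1)

theorem lev_eq {k : ℕ → ℕ} (hk : StrictMono k) {n i : ℕ} (h1 : k n ≤ i) (h2 : i < k (n + 1)) :
    lev k i = n := by
  unfold lev
  rw [Nat.findGreatest_eq_iff]
  refine ⟨(hk.le_apply).trans h1, fun _ => h1, fun m hm _ hcon => ?_⟩
  have := hk.monotone (Nat.succ_le_of_lt hm)
  exact absurd (h2.trans_le (this.trans hcon)) (lt_irrefl _)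

theorem lev_mono (k : ℕ → ℕ) : Monotone (lev k) := fun _ _ h =>
  Nat.findGreatest_mono (fun _ hn => le_trans hn h) h

theorem co_anti (k : ℕ → ℕ) : Antitone (co k) := by
  intro i j hij
  unfold co
  have h : (lev k i : ℚ) ≤ (lev k j : ℚ) := by exact_mod_cast lev_mono k hij
  exact one_div_le_one_div_of_le (by positivity) (by linarith)

theorem lev_tendsto {k : ℕ → ℕ} (hk : StrictMono k) : Tendsto (lev k) atTop atTop := by
  rw [tendsto_atTop]
  intro n
  rw [eventually_atTop]
  exact ⟨k n, fun i hi => Nat.le_findGreatest (hk.le_apply.trans hi) hi⟩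

theorem co_tendsto {k : ℕ → ℕ} (hk : StrictMono k) :
    Tendsto (fun n => (co k n : ℝ)) atTop (𝓝 0) := by
  have h := (tendsto_one_div_add_atTop_nhds_zero_nat (𝕜 := ℝ)).comp (lev_tendsto hk)
  refine h.congr fun n => ?_
  simp [co]

/-- the number of changes in a group -/
def LL (n : ℕ) : ℕ := 2 * n + 5

section

variable {X : Set ℕ} {k : ℕ → ℕ} {S : Set ℕ}

open Classical in
/-- the first change of a group -/
noncomputable def st (X : Set ℕ) (k : ℕ → ℕ) (n q : ℕ) : ℕ := Nat.count (tr X) (k n) + q * LL n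

theorem le_st (hX : (Set.ofPred (tr X)).Infinite) (n q : ℕ) : k n ≤ Nat.nth (tr X) (st X k n q) := by
  classical
  have h1 : k n ≤ Nat.nth (tr X) (Nat.count (tr X) (k n)) := Nat.le_nth_count hX _
  refine h1.trans ((Nat.nth_strictMono hX).monotone ?_)
  unfold st
  convert Nat.le_add_right _ _

theorem st_le (hX : (Set.ofPred (tr X)).Infinite) {n : ℕ}
    (hk : Nat.nth (tr X) (st X k n (2 ^ LL n)) ≤ k (n + 1)) {q : ℕ} (hq : q < 2 ^ LL n) :
    Nat.nth (tr X) (st X k n q + LL n) ≤ k (n + 1) := by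
  refine ((Nat.nth_strictMono hX).monotone ?_).trans hk
  unfold st
  have : (q + 1) * LL n ≤ 2 ^ LL n * LL n := Nat.mul_le_mul_right _ hq
  rw [Nat.add_one_mul] at this
  omega

theorem disj (hX : (Set.ofPred (tr X)).Infinite) (hk : StrictMono k)
    (hkX : ∀ n, n ∈ S → Nat.nth (tr X) (st X k n (2 ^ LL n)) ≤ k (n + 1)) {n q n' q' : ℕ}
    (hn : n ∈ S) (hq : q < 2 ^ LL n) (h : n < n' ∨ (n = n' ∧ q < q')) :
    Disjoint (F X (st X k n q) (LL n)) (F X (st X k n' q') (LL n')) := by
  have key : Nat.nth (tr X) (st X k n q + LL n) ≤ Nat.nth (tr X) (st X k n' q') := by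
    rcases h with h | ⟨rfl, h⟩
    · exact (st_le hX (hkX n hn) hq).trans ((hk.monotone (Nat.succ_le_of_lt h)).trans (le_st hX n' q'))
    · refine (Nat.nth_strictMono hX).monotone ?_
      unfold st
      have : (q + 1) * LL n ≤ q' * LL n := Nat.mul_le_mul_right _ h
      rw [Nat.add_one_mul] at this
      omega
  rw [Finset.disjoint_left]
  intro i hi hi'
  obtain ⟨j, rfl, -, h2⟩ := mem_F hi
  obtain ⟨j', hj, h3, -⟩ := mem_F hi'
  omega

open Classical in
/-- the event -/
noncomputable def Ev (X : Set ℕ) (k : ℕ → ℕ) (S : Set ℕ) (v : ℕ) : Set (ℕ → Bool) :=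
  if v.unpair.1 ∈ S ∧ v.unpair.2 < 2 ^ LL v.unpair.1 then
    {b | ∀ i ∈ F X (st X k v.unpair.1 v.unpair.2) (LL v.unpair.1), b i = decide (i ∉ X)} else ∅

theorem ev_meas (v : ℕ) : MeasurableSet (Ev X k S v) := by
  unfold Ev
  split_ifs
  · exact meas_fin _ _
  · exact MeasurableSet.empty

theorem ev_coins (hX : (Set.ofPred (tr X)).Infinite) {v : ℕ}
    (hv : v.unpair.1 ∈ S ∧ v.unpair.2 < 2 ^ LL v.unpair.1) :
    coins ℕ (Ev X k S v) = (2⁻¹ : ℝ≥0∞) ^ LL v.unpair.1 := by
  classical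
  unfold Ev
  rw [if_pos hv]
  rw [coins_fin _ (fun i => decide (i ∉ X)), card_F hX]

theorem ev_indep (hX : (Set.ofPred (tr X)).Infinite) (hk : StrictMono k)
    (hkX : ∀ n, n ∈ S → Nat.nth (tr X) (st X k n (2 ^ LL n)) ≤ k (n + 1)) :
    iIndepSet (Ev X k S) (coins ℕ) := by
  classical
  rw [iIndepSet_iff_meas_biInter ev_meas]
  intro t
  by_cases ht : ∀ v ∈ t, v.unpair.1 ∈ S ∧ v.unpair.2 < 2 ^ LL v.unpair.1
  · have h1 : (⋂ v ∈ t, Ev X k S v) = {b | ∀ i ∈ t.biUnion fun v =>
        F X (st X k v.unpair.1 v.unpair.2) (LL v.unpair.1), b i = decide (i ∉ X)} := by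
      ext b
      simp only [mem_iInter, Finset.mem_biUnion]
      constructor
      · rintro h i ⟨v, hv, hi⟩
        have := h v hv
        unfold Ev at this
        rw [if_pos (ht v hv)] at this
        exact this i hi
      · intro h v hv
        unfold Ev
        rw [if_pos (ht v hv)]
        exact fun i hi => h i ⟨v, hv, hi⟩
    rw [h1, coins_fin _ (fun i => decide (i ∉ X)), Finset.card_biUnion, ← Finset.prod_pow_eq_pow_sum]
    · refine Finset.prod_congr rfl fun v hv => ?_
      rw [ev_coins hX (ht v hv), card_F hX]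
    · intro v hv v' hv' hne
      have hne' : ¬ (v.unpair.1 = v'.unpair.1 ∧ v.unpair.2 = v'.unpair.2) := by
        rintro ⟨h1, h2⟩
        apply hne
        rw [← Nat.pair_unpair v, ← Nat.pair_unpair v', h1, h2]
      rcases lt_trichotomy v.unpair.1 v'.unpair.1 with h | h | h
      · exact disj hX hk hkX (ht v hv).1 (ht v hv).2 (Or.inl h)
      · rcases lt_trichotomy v.unpair.2 v'.unpair.2 with h' | h' | h'
        · exact disj hX hk hkX (ht v hv).1 (ht v hv).2 (Or.inr ⟨h, h'⟩)
        · exact absurd ⟨h, h'⟩ hne'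
        · exact (disj hX hk hkX (ht v' hv').1 (ht v' hv').2 (Or.inr ⟨h.symm, h'⟩)).symm
      · exact (disj hX hk hkX (ht v' hv').1 (ht v' hv').2 (Or.inl h)).symm
  · push Not at ht
    obtain ⟨v, hv, hv'⟩ := ht
    have h1 : Ev X k S v = ∅ := by
      unfold Ev
      rw [if_neg]
      rintro ⟨h2, h3⟩
      exact absurd (hv' h2) (not_le.2 h3)
    have h2 : (⋂ v ∈ t, Ev X k S v) = ∅ := by
      rw [eq_empty_iff_forall_notMem]
      intro b hb
      have := mem_iInter₂.1 hb v hv
      rw [h1] at this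
      exact this
    rw [h2, measure_empty]
    symm
    exact Finset.prod_eq_zero hv (by rw [h1, measure_empty])

theorem ev_sum (hX : (Set.ofPred (tr X)).Infinite) (hS : S.Infinite) : ∑' v, coins ℕ (Ev X k S v) = ∞ := by
  classical
  rw [← Nat.pairEquiv.tsum_eq fun v => coins ℕ (Ev X k S v), ENNReal.tsum_prod']
  have h1 : ∀ n, n ∈ S → 1 ≤ ∑' q, coins ℕ (Ev X k S (Nat.pairEquiv (n, q))) := by
    intro n hn
    refine le_trans ?_ (ENNReal.sum_le_tsum (Finset.range (2 ^ LL n)))
    have h2 : ∀ q ∈ Finset.range (2 ^ LL n), coins ℕ (Ev X k S (Nat.pairEquiv (n, q))) =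
        (2⁻¹ : ℝ≥0∞) ^ LL n := by
      intro q hq
      rw [Finset.mem_range] at hq
      have h3 : (Nat.pairEquiv (n, q)).unpair = (n, q) := Nat.unpair_pair n q
      rw [ev_coins hX (by rw [h3]; exact ⟨hn, hq⟩), h3]
    rw [Finset.sum_congr rfl h2, Finset.sum_const, Finset.card_range, nsmul_eq_mul]
    push_cast
    rw [← mul_pow, ENNReal.mul_inv_cancel (by simp) (by simp), one_pow]
  have h2 : ∑' n : ℕ, (1 : ℝ≥0∞) = ∞ := ENNReal.tsum_const_eq_top_of_ne_zero one_ne_zero
  refine top_unique ?_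
  rw [← h2]
  have hS' : (Set.ofPred (· ∈ S)).Infinite := hS
  refine (ENNReal.tsum_le_tsum fun n => h1 (Nat.nth (· ∈ S) n)
    (Nat.nth_mem_of_infinite hS' n)).trans ?_
  exact ENNReal.tsum_comp_le_tsum_of_injective (Nat.nth_injective hS')
    fun n => ∑' q, coins ℕ (Ev X k S (Nat.pairEquiv (n, q)))

theorem ae_div (hX : (Set.ofPred (tr X)).Infinite) (hk : StrictMono k) (hS : S.Infinite)
    (hkX : ∀ n, n ∈ S → Nat.nth (tr X) (st X k n (2 ^ LL n)) ≤ k (n + 1)) :
    coins ℕ {b | SubConv X (ser (co k) b)} = 0 := by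
  classical
  have h1 := measure_limsup_eq_one ev_meas (ev_indep hX hk hkX) (ev_sum hX hS)
  have h2 : {b | SubConv X (ser (co k) b)} ⊆ (limsup (Ev X k S) atTop)ᶜ := by
    rintro b ⟨l, hl⟩ hb
    rw [mem_limsup_iff_frequently_mem] at hb
    have hinf : {v | b ∈ Ev X k S v}.Infinite := Nat.frequently_atTop_iff_infinite.1 hb
    obtain ⟨M, hM⟩ := Metric.cauchySeq_iff.1 hl.cauchySeq 1 one_pos
    have hfin : {v : ℕ | v.unpair.1 < M ∧ v.unpair.2 < 2 ^ LL v.unpair.1}.Finite := by
      refine ((Finset.range M).biUnion fun n => (Finset.range (2 ^ LL n)).image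
        fun q => Nat.pair n q).finite_toSet.subset ?_
      rintro v ⟨h3, h4⟩
      rw [Finset.mem_coe, Finset.mem_biUnion]
      exact ⟨v.unpair.1, Finset.mem_range.2 h3, Finset.mem_image.2 ⟨v.unpair.2,
        Finset.mem_range.2 h4, Nat.pair_unpair v⟩⟩
    obtain ⟨v, hv, hv'⟩ := (hinf.sdiff hfin).nonempty
    have hv1 : b ∈ Ev X k S v := hv
    have hval : v.unpair.1 ∈ S ∧ v.unpair.2 < 2 ^ LL v.unpair.1 := by
      by_contra hcon
      unfold Ev at hv1
      rw [if_neg hcon] at hv1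
      exact hv1
    unfold Ev at hv1
    rw [if_pos hval] at hv1
    have hvM : M ≤ v.unpair.1 := by
      by_contra hcon
      exact hv' ⟨not_le.1 hcon, hval.2⟩
    set n := v.unpair.1
    set q := v.unpair.2
    have hse : Nat.nth (tr X) (st X k n q) ≤ Nat.nth (tr X) (st X k n q + LL n) :=
      (Nat.nth_strictMono hX).monotone (Nat.le_add_right _ _)
    have hs : k n ≤ Nat.nth (tr X) (st X k n q) := le_st hX n q
    have he := st_le hX (hkX n hval.1) hval.2
    have hj := jump (X := X) (b := b) (n := n) (c := co k) hse (fun i hi hi' => by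
      unfold co
      rw [lev_eq hk (hs.trans hi) (hi'.trans_le he)]) (fun j h3 h4 h5 => by
      have h6 : j + 1 ∈ F X (st X k n q) (LL n) := by
        unfold F
        exact Finset.mem_image.2 ⟨j, Finset.mem_filter.2 ⟨Finset.mem_Ico.2 ⟨h3, h4⟩, h5⟩, rfl⟩
      have h7 : b (j + 1) = decide (j + 1 ∉ X) := hv1 _ h6
      rw [h7, decide_eq_true_iff]) (card_win hX _ _)
    have hMs : M ≤ Nat.nth (tr X) (st X k n q) := hvM.trans (hk.le_apply.trans hs)
    have h8 := hM _ (hMs.trans hse) _ hMs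
    rw [Real.dist_eq] at h8
    exact absurd (lt_of_le_of_lt (hj.trans (le_abs_self _)) h8) (lt_irrefl _)
  refine measure_mono_null h2 ?_
  rw [prob_compl_eq_zero_iff]
  · exact h1
  · exact MeasurableSet.measurableSet_limsup ev_meas

end

end Pool.Agent.R582.SS
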