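import Mathlib
import Pool.Agent.R582.SS.Null

set_option autoImplicit false

/-!
# `min {𝔡, cov(𝒩)} ≤ 𝔰𝔰_c`
-/

namespace Pool.Agent.R582.SS

open Cardinal Set Filter MeasureTheory Topology
open scoped ENNReal
open Pool.Agent.R582.Rand (coins coins_cyl)

/-- no family indexed by `W` of functions is dominating -/
def NotDom (W : Type) : Prop :=
  ∀ f : W → ℕ → ℕ, ∃ g : ℕ → ℕ, ∀ w, ∃ᶠ n in atTop, f w n ≤ g n

/-- no family indexed by `W` of null sets covers the Cantor space -/
def NotCov (W : Type) : Prop :=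
  ∀ N : W → Set (ℕ → Bool), (∀ w, coins ℕ (N w) = 0) → ∃ b, ∀ w, b ∉ N w

theorem exists_k {W : Type} (hD : NotDom W) (h : W → ℕ → ℕ) (hm : ∀ w, Monotone (h w)) :
    ∃ k : ℕ → ℕ, StrictMono k ∧ ∀ w, {n | h w (k n) ≤ k (n + 1)}.Infinite := by
  obtain ⟨g0, hg0⟩ := hD fun w m => h w (h w m)
  let g : ℕ → ℕ := fun m => (∑ i ∈ Finset.range (m + 1), g0 i) + m + 1
  have hg1 : ∀ m, g0 m ≤ g m := by
    intro m
    have := Finset.single_le_sum (f := g0) (s := Finset.range (m + 1)) (fun i _ => Nat.zero_le _)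
      (Finset.self_mem_range_succ m)
    simp only [g]
    omega
  have hgm : Monotone g := by
    refine monotone_nat_of_le_succ fun m => ?_
    simp only [g]
    rw [Finset.sum_range_succ _ (m + 1)]
    omega
  let k : ℕ → ℕ := fun n => g^[n] 0
  have hk0 : k 0 = 0 := rfl
  have hk1 : ∀ n, k (n + 1) = g (k n) := fun n => Function.iterate_succ_apply' g n 0
  have hk : StrictMono k := strictMono_nat_of_lt_succ fun n => by
    rw [hk1]
    simp only [g]
    omega
  refine ⟨k, hk, fun w hfin => ?_⟩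
  obtain ⟨n1, hn1⟩ := hfin.bddAbove
  have h1 : ∀ n, n1 < n → k (n + 1) < h w (k n) := by
    intro n hn
    by_contra hcon
    exact absurd (hn1 (show n ∈ {n | h w (k n) ≤ k (n + 1)} from not_lt.1 hcon)) (not_le.2 hn)
  obtain ⟨m, hm1, hm2⟩ := frequently_atTop.1 (hg0 w) (k (n1 + 1))
  let n := Nat.findGreatest (fun n => k n ≤ m) m
  have h2 : k n ≤ m := Nat.findGreatest_spec (P := fun n => k n ≤ m) (Nat.zero_le m)
    (by rw [hk0]; exact Nat.zero_le _)
  have h3 : m < k (n + 1) := by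
    rcases Nat.lt_or_ge m (n + 1) with h | h
    · exact h.trans_le hk.le_apply
    · exact not_le.1 (Nat.findGreatest_is_greatest (P := fun n => k n ≤ m) (Nat.lt_succ_self n) h)
  have h4 : n1 < n := by
    by_contra hcon
    have := hk.monotone (show n + 1 ≤ n1 + 1 by omega)
    omega
  have h5 : k (n + 1) < h w m := (h1 n h4).trans_le (hm w h2)
  have h6 : k (n + 1 + 1) < h w (h w m) := (h1 (n + 1) (by omega)).trans_le (hm w h5.le)
  have h7 : g m ≤ k (n + 1 + 1) := by
    rw [hk1 (n + 1)]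
    exact hgm h3.le
  have h8 := hg1 m
  omega

theorem exists_series {W : Type} [Nonempty W] (hD : NotDom W) (hC : NotCov W) (X : W → Set ℕ)
    (hX : ∀ w, (X w).Infinite) (hX' : ∀ w, (X w)ᶜ.Infinite) :
    ∃ a : ℕ → ℚ, CondConv a ∧ ∀ w, ¬ SubConv (X w) a := by
  classical
  have hinf : ∀ w, (Set.ofPred (tr (X w))).Infinite := fun w => tr_infinite (hX w) (hX' w)
  obtain ⟨k, hk, hk2⟩ := exists_k hD
    (fun w m => Nat.nth (tr (X w)) (Nat.count (tr (X w)) m + 2 ^ LL m * LL m)) (by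
      intro w m m' hmm
      refine (Nat.nth_strictMono (hinf w)).monotone ?_
      have h1 : Nat.count (tr (X w)) m ≤ Nat.count (tr (X w)) m' := Nat.count_monotone _ hmm
      have h2 : LL m ≤ LL m' := by unfold LL; omega
      exact Nat.add_le_add h1 (Nat.mul_le_mul (Nat.pow_le_pow_right (by norm_num) h2) h2))
  obtain ⟨b, hb⟩ := hC (fun w => {b | SubConv (X w) (ser (co k) b)}) fun w =>
    ae_div (S := {n | Nat.nth (tr (X w)) (Nat.count (tr (X w)) (k n) + 2 ^ LL (k n) * LL (k n)) ≤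
      k (n + 1)}) (hinf w) hk (hk2 w) fun n hn => by
        refine le_trans ((Nat.nth_strictMono (hinf w)).monotone ?_) hn
        have h2 : LL n ≤ LL (k n) := by
          have := hk.le_apply (x := n)
          unfold LL; omega
        have h3 := Nat.mul_le_mul (Nat.pow_le_pow_right (n := 2) (by norm_num) h2) h2
        unfold st
        convert Nat.add_le_add_left h3 _
  refine ⟨ser (co k) b, ⟨ser_conv (co_anti k) (co_tendsto hk) b, fun hcon => ?_⟩, hb⟩
  exact hb (Classical.arbitrary W) (subConv_of_summable hcon _)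

/-- The cardinal `𝔰𝔰_c`: the least size of a family of infinite coinfinite sets of natural numbers
such that every conditionally convergent series of rational numbers has a convergent subseries
given by a member of the family. -/
noncomputable def ssc : Cardinal.{0} :=
  sInf {κ | ∃ 𝒳 : Set (Set ℕ), #𝒳 = κ ∧ (∀ X ∈ 𝒳, X.Infinite ∧ Xᶜ.Infinite) ∧
    ∀ a : ℕ → ℚ, CondConv a → ∃ X ∈ 𝒳, SubConv X a}

/-- the dominating number -/
noncomputable def dd : Cardinal.{0} :=
  sInf {κ | ∃ F : Set (ℕ → ℕ), #F = κ ∧ ∀ g : ℕ → ℕ, ∃ f ∈ F, ∀ᶠ n in atTop, g n ≤ f n}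

/-- the least size of a family of null sets covering the Cantor space -/
noncomputable def covN : Cardinal.{0} :=
  sInf {κ | ∃ 𝒩 : Set (Set (ℕ → Bool)), #𝒩 = κ ∧ (∀ N ∈ 𝒩, coins ℕ N = 0) ∧ ⋃₀ 𝒩 = Set.univ}

/-- the least size of a family of meager sets covering the Cantor space -/
noncomputable def covM : Cardinal.{0} :=
  sInf {κ | ∃ 𝓜 : Set (Set (ℕ → Bool)), #𝓜 = κ ∧ (∀ M ∈ 𝓜, IsMeagre M) ∧ ⋃₀ 𝓜 = Set.univ}

theorem tendsto_zero {a : ℕ → ℚ} (h : CondConv a) : Tendsto (fun n => (a n : ℝ)) atTop (𝓝 0) := by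
  obtain ⟨⟨l, hl⟩, -⟩ := h
  have h1 := (hl.comp (tendsto_add_atTop_nat 1)).sub hl
  rw [sub_self] at h1
  refine h1.congr fun n => ?_
  simp [Finset.sum_range_succ]

/-- every conditionally convergent series has a convergent subseries -/
theorem exists_sub {a : ℕ → ℚ} (h : CondConv a) :
    ∃ X : Set ℕ, (X.Infinite ∧ Xᶜ.Infinite) ∧ SubConv X a := by
  classical
  have h0 := tendsto_zero h
  have h1 : ∀ n m : ℕ, ∃ i, m + 2 ≤ i ∧ |(a i : ℝ)| ≤ (1 / 2 : ℝ) ^ n := by
    intro n m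
    have h2 : ∀ᶠ i in atTop, |(a i : ℝ)| ≤ (1 / 2 : ℝ) ^ n := by
      have h3 := (tendsto_order.1 h0.abs).2 ((1 / 2 : ℝ) ^ n) (by rw [abs_zero]; positivity)
      exact h3.mono fun i hi => hi.le
    obtain ⟨i, hi1, hi2⟩ := (h2.and (eventually_ge_atTop (m + 2))).exists
    exact ⟨i, hi2, hi1⟩
  choose nx hnx1 hnx2 using h1
  let f : ℕ → ℕ := fun n => Nat.rec (nx 0 0) (fun n r => nx (n + 1) r) n
  have hf1 : ∀ n, f n + 2 ≤ f (n + 1) := fun n => hnx1 _ _
  have hf2 : ∀ n, |(a (f n) : ℝ)| ≤ (1 / 2 : ℝ) ^ n := by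
    intro n
    cases n with
    | zero => exact hnx2 _ _
    | succ n => exact hnx2 _ _
  have hf : StrictMono f := strictMono_nat_of_lt_succ fun n => by
    have := hf1 n
    omega
  refine ⟨range f, ⟨infinite_range_of_injective hf.injective, ?_⟩, ?_⟩
  · refine (infinite_range_of_injective (f := fun n => f n + 1) fun i j hij =>
      hf.injective (Nat.succ.inj hij)).mono ?_
    rintro _ ⟨n, rfl⟩ ⟨m, hm⟩
    change f m = f n + 1 at hm
    rcases Nat.lt_or_ge n m with h | h
    · have h2 := hf.monotone (Nat.succ_le_of_lt h)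
      have h3 := hf1 n
      simp only [Nat.succ_eq_add_one] at h2
      omega
    · have := hf.monotone h
      omega
  · have h2 : Summable fun i => if i ∈ range f then (a i : ℝ) else 0 := by
      rw [← hf.injective.summable_iff (fun i hi => if_neg hi)]
      refine Summable.of_norm_bounded summable_geometric_two fun n => ?_
      simp only [Function.comp, mem_range_self, if_true]
      exact hf2 n
    refine ⟨_, h2.hasSum.tendsto_sum_nat.congr fun n => ?_⟩
    rw [Finset.sum_filter]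

theorem ssc_mem : ∃ 𝒳 : Set (Set ℕ), #𝒳 = ssc ∧ (∀ X ∈ 𝒳, X.Infinite ∧ Xᶜ.Infinite) ∧
    ∀ a : ℕ → ℚ, CondConv a → ∃ X ∈ 𝒳, SubConv X a := by
  have h : {κ | ∃ 𝒳 : Set (Set ℕ), #𝒳 = κ ∧ (∀ X ∈ 𝒳, X.Infinite ∧ Xᶜ.Infinite) ∧
      ∀ a : ℕ → ℚ, CondConv a → ∃ X ∈ 𝒳, SubConv X a}.Nonempty := by
    refine ⟨_, {X | X.Infinite ∧ Xᶜ.Infinite}, rfl, fun X hX => hX, fun a ha => ?_⟩
    obtain ⟨X, hX, hXa⟩ := exists_sub ha
    exact ⟨X, hX, hXa⟩
  exact csInf_mem h

theorem lt_ssc {W : Type} [Nonempty W] (hD : NotDom W) (hC : NotCov W) : #W < ssc := by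
  classical
  by_contra hcon
  rw [not_lt] at hcon
  obtain ⟨𝒳, h1, h2, h3⟩ := ssc_mem
  rw [← h1] at hcon
  rcases 𝒳.eq_empty_or_nonempty with he | hne
  · obtain ⟨a, ha, -⟩ := exists_series hD hC (fun _ => {n | Even n}) (fun _ => by
      refine (infinite_range_of_injective (f := fun n : ℕ => 2 * n) fun i j h => by
        simpa using h).mono ?_
      rintro _ ⟨n, rfl⟩
      exact even_two_mul n) (fun _ => by
      refine (infinite_range_of_injective (f := fun n : ℕ => 2 * n + 1) fun i j h => by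
        simpa using h).mono ?_
      rintro _ ⟨n, rfl⟩ h
      exact absurd h (by simp))
    obtain ⟨X, hX, -⟩ := h3 a ha
    rw [he] at hX
    exact hX
  · have hne' : Nonempty 𝒳 := hne.to_subtype
    obtain ⟨i⟩ := (Cardinal.le_def _ _).1 hcon
    let φ : W → 𝒳 := Function.invFun i
    have hφ : Function.Surjective φ := Function.invFun_surjective i.injective
    obtain ⟨a, ha, ha2⟩ := exists_series hD hC (fun w => (φ w).1) (fun w => (h2 _ (φ w).2).1)
      (fun w => (h2 _ (φ w).2).2)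
    obtain ⟨X, hX, hX2⟩ := h3 a ha
    obtain ⟨w, hw⟩ := hφ ⟨X, hX⟩
    refine ha2 w ?_
    rw [hw]
    exact hX2

/-- **`min {𝔡, cov(𝒩)} ≤ 𝔰𝔰_c`** -/
theorem min_le_ssc : min dd covN ≤ ssc := by
  classical
  by_contra hcon
  rw [not_le, lt_min_iff] at hcon
  obtain ⟨𝒳, h1, -, -⟩ := ssc_mem
  have key : ∀ W : Type, #W < dd → #W < covN → NotDom W ∧ NotCov W := by
    intro W hW1 hW2
    constructor
    · intro f
      by_contra hc
      push Not at hc
      refine absurd hW1 (not_lt.2 (le_trans (csInf_le' ⟨range f, rfl, fun g => ?_⟩)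
        Cardinal.mk_range_le))
      obtain ⟨w, hw⟩ := hc g
      refine ⟨f w, ⟨w, rfl⟩, ?_⟩
      exact hw.mono fun n hn => hn.le
    · intro N hN
      by_contra hc
      push Not at hc
      refine absurd hW2 (not_lt.2 (le_trans (csInf_le' ⟨range N, rfl, ?_, ?_⟩)
        Cardinal.mk_range_le))
      · rintro _ ⟨w, rfl⟩
        exact hN w
      · refine eq_univ_of_forall fun b => ?_
        obtain ⟨w, hw⟩ := hc b
        exact ⟨N w, ⟨w, rfl⟩, hw⟩
  rcases 𝒳.eq_empty_or_nonempty with he | hne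
  · have h2 : (0 : Cardinal.{0}) = ssc := by rw [← h1, he]; simp
    have h3 : #Unit < ssc := by
      refine lt_ssc (fun f => ⟨f (), fun w => Frequently.of_forall fun n => le_rfl⟩) fun N hN => ?_
      by_contra hc
      push Not at hc
      have h4 : N () = Set.univ := eq_univ_of_forall fun b => by
        obtain ⟨w, hw⟩ := hc b
        exact hw
      have h5 := hN ()
      rw [h4, measure_univ] at h5
      exact one_ne_zero h5
    rw [← h2] at h3
    exact absurd h3 (not_lt.2 zero_le)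
  · have : Nonempty 𝒳 := hne.to_subtype
    obtain ⟨h2, h3⟩ := key 𝒳 (h1 ▸ hcon.1) (h1 ▸ hcon.2)
    have h4 := lt_ssc h2 h3
    rw [h1] at h4
    exact lt_irrefl _ h4

end Pool.Agent.R582.SS
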