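import Mathlib
import Pool.Agent.R582.SS.Ineq
import Pool.Agent.R582.GG.Rep

set_option autoImplicit false

/-!
# The hypothesis, and the proof that it is forced by random reals
-/

namespace Pool.Agent.R582.SS

open Cardinal Set Filter MeasureTheory Topology
open scoped ENNReal
open Pool.Agent.Helper292.SP (fnot fand fall fimp fiff fex fground meets mem_fex mem_fimp)
open Pool.Agent.R582.Rand
open Pool.Agent.R582.GG

/-- The hypothesis. (1) `W` is not empty, and every family, indexed by `W`, of total relations on the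
natural numbers is bounded by a relation with finite sections (so families of functions indexed by
`W` are bounded modulo finite sets). (2) There are sets `r w`, `w ∈ W`, of natural numbers such that
every set `x` of natural numbers is, for some `w`, different from `r w` on almost all of the finite
sets `{(n, j) : j < n}` (where `(n, j)` is `Nat.pair n j`). (3) For every family indexed by `W` of
codes of null sets (for each `n` the set `c w n` of finite binary strings has at most weight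
`2 ^ (-n)`) there is a set `x` of natural numbers such that for each `w` there is `n` such that no
string in `c w n` is an initial segment of (the characteristic function of) `x`. -/
def Hyp (W : Type) : Prop :=
  Nonempty W ∧
  (∀ F : W → ℕ → ℕ → Prop, (∀ w n, ∃ k, F w n k) →
    ∃ g : ℕ → ℕ → Prop, (∀ n, ∃ N, ∀ k, g n k → k ≤ N) ∧
      ∀ w, ∃ N, ∀ n, N ≤ n → ∃ k, g n k ∧ F w n k) ∧
  (∃ r : W → ℕ → Prop, ∀ x : ℕ → Prop, ∃ w, ∃ N, ∀ n, N ≤ n →
    ¬ ∀ j : Fin n, (x (Nat.pair n j) ↔ r w (Nat.pair n j))) ∧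
  ∀ c : W → ℕ → List Bool → Prop,
    (∀ w n, ∀ T : Finset (List Bool), (∀ s, s ∈ T → c w n s) →
      ∑ s ∈ T, (2⁻¹ : ℝ≥0∞) ^ s.length ≤ (2⁻¹ : ℝ≥0∞) ^ n) →
    ∃ x : ℕ → Prop, ∀ w, ∃ n, ∀ s, c w n s → ¬ ∀ i : Fin s.length, (x i ↔ s.get i = true)

/-- `Hyp` in the forcing language -/
def HypN (P : Type) [Preorder P] (W : Type) : Set P :=
  fand (fground (Nonempty W)) (fand
  (fall fun F : W → ℕ → ℕ → Set P =>
    fimp (fall fun w : W => fall fun n : ℕ => fex fun k : ℕ => meets (F w n k))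
    (fex fun g : ℕ → ℕ → Set P => fand
      (fall fun n : ℕ => fex fun N : ℕ => fall fun k : ℕ => fimp (meets (g n k)) (fground (k ≤ N)))
      (fall fun w : W => fex fun N : ℕ => fall fun n : ℕ => fimp (fground (N ≤ n))
        (fex fun k : ℕ => fand (meets (g n k)) (meets (F w n k)))))) (fand
  (fex fun r : W → ℕ → Set P => fall fun x : ℕ → Set P => fex fun w : W => fex fun N : ℕ =>
    fall fun n : ℕ => fimp (fground (N ≤ n)) (fnot (fall fun j : Fin n =>
      fiff (meets (x (Nat.pair n j))) (meets (r w (Nat.pair n j))))))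
  (fall fun c : W → ℕ → List Bool → Set P => fimp
    (fall fun w : W => fall fun n : ℕ => fall fun T : Finset (List Bool) =>
      fimp (fall fun s : List Bool => fimp (fground (s ∈ T)) (meets (c w n s)))
        (fground (∑ s ∈ T, (2⁻¹ : ℝ≥0∞) ^ s.length ≤ (2⁻¹ : ℝ≥0∞) ^ n)))
    (fex fun x : ℕ → Set P => fall fun w : W => fex fun n : ℕ => fall fun s : List Bool =>
      fimp (meets (c w n s)) (fnot (fall fun i : Fin s.length =>
        fiff (meets (x i)) (fground (s.get i = true))))))))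

section bdd

variable {Ω : Type} [MeasurableSpace Ω] {μ : Measure Ω} [IsFiniteMeasure μ] {W : Type}

theorem forces_bdd' (hW : ∀ F : W → ℕ → ℕ, ∃ g : ℕ → ℕ, ∀ w, ∀ᶠ n in atTop, F w n ≤ g n)
    (p : MAlg μ) : p ∈
    (fall fun F : W → ℕ → ℕ → Set (MAlg μ) =>
      fimp (fall fun w : W => fall fun n : ℕ => fex fun k : ℕ => meets (F w n k))
      (fex fun g : ℕ → ℕ → Set (MAlg μ) => fand
        (fall fun n : ℕ => fex fun N : ℕ => fall fun k : ℕ => fimp (meets (g n k)) (fground (k ≤ N)))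
        (fall fun w : W => fex fun N : ℕ => fall fun n : ℕ => fimp (fground (N ≤ n))
          (fex fun k : ℕ => fand (meets (g n k)) (meets (F w n k)))))) := by
  intro F
  rw [mem_fimp]
  intro q _ hq
  have h1 : ∀ w n, ∀ᵐ x ∂μ, x ∈ q.s → ∃ k, x ∈ val (F w n k) := fun w n =>
    ((rep_ex fun k => rep_meets (F w n k)).2 q).1 (hq w n)
  have h2 : ∀ w (n : ℕ), ∃ N, μ (q.s \ ⋃ k ∈ Finset.range (N + 1), val (F w n k)) ≤
      ENNReal.ofReal ((1 / 2 : ℝ) ^ n) := by
    intro w n
    set H : ℕ → Set Ω := fun N => q.s \ ⋃ k ∈ Finset.range (N + 1), val (F w n k) with hH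
    have hanti : Antitone H := by
      intro N N' hN x hx
      refine ⟨hx.1, fun h => hx.2 ?_⟩
      simp only [mem_iUnion, exists_prop, Finset.mem_range] at h ⊢
      obtain ⟨k, hk, hk'⟩ := h
      exact ⟨k, by omega, hk'⟩
    have h3 := tendsto_measure_iInter_atTop (μ := μ) (s := H)
      (fun N => (q.meas.diff (Finset.measurableSet_biUnion _ fun k _ => val_meas _)).nullMeasurableSet)
      hanti ⟨0, measure_ne_top _ _⟩
    have h4 : μ (⋂ N, H N) = 0 := by
      refine measure_mono_null (fun x hx => ?_) (ae_iff.1 (h1 w n))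
      simp only [mem_ofPred_eq, Classical.not_imp, not_exists]
      rw [mem_iInter] at hx
      refine ⟨(hx 0).1, fun k hk => (hx k).2 ?_⟩
      simp only [mem_iUnion, exists_prop, Finset.mem_range]
      exact ⟨k, by omega, hk⟩
    rw [h4] at h3
    have h5 : ∀ᶠ N in atTop, (μ ∘ H) N < ENNReal.ofReal ((1 / 2 : ℝ) ^ n) :=
      h3.eventually_lt_const (by
        rw [ENNReal.ofReal_pos]; positivity)
    obtain ⟨N, hN⟩ := h5.exists
    exact ⟨N, hN.le⟩
  choose f hf using h2
  obtain ⟨g, hg⟩ := hW f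
  refine ⟨q, le_rfl, ?_⟩
  rw [mem_fex]
  intro r hr
  refine ⟨r, le_rfl, fun n k => cst {_x | k ≤ g n}, ?_, ?_⟩
  · intro n
    rw [(rep_ex fun N : ℕ => rep_all fun k : ℕ => rep_imp
      (rep_cst (μ := μ) (E := {_x : Ω | k ≤ g n}) (MeasurableSet.const _))
      (rep_ground (k ≤ N))).2]
    exact ae_of_all _ fun x _ => ⟨g n, fun k hk => hk⟩
  · intro w
    rw [(rep_ex fun N : ℕ => rep_all fun n : ℕ => rep_imp (rep_ground (N ≤ n)) (rep_ex fun k : ℕ =>
      rep_and (rep_cst (μ := μ) (E := {_x : Ω | k ≤ g n}) (MeasurableSet.const _))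
        (rep_meets (F w n k)))).2]
    have hsum : ∑' n, μ (q.s \ ⋃ k ∈ Finset.range (f w n + 1), val (F w n k)) ≠ ∞ := by
      refine ne_top_of_le_ne_top ?_ (ENNReal.tsum_le_tsum (hf w))
      rw [← ENNReal.ofReal_tsum_of_nonneg (fun n => by positivity) summable_geometric_two]
      exact ENNReal.ofReal_ne_top
    filter_upwards [ae_eventually_notMem hsum, le_iff_ae.1 hr] with x hx hxr hxq
    obtain ⟨N, hN⟩ := eventually_atTop.1 (hx.and (hg w))
    refine ⟨N, fun n hn => ?_⟩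
    obtain ⟨h3, h4⟩ := hN n hn
    have h5 : x ∈ ⋃ k ∈ Finset.range (f w n + 1), val (F w n k) := by
      by_contra hcon
      exact h3 ⟨hxr hxq, hcon⟩
    simp only [mem_iUnion, exists_prop, Finset.mem_range] at h5
    obtain ⟨k, hk, hk'⟩ := h5
    exact ⟨k, (Nat.lt_succ_iff.1 hk).trans h4, hk'⟩

end bdd

section

variable {K W : Type}

/-- the events given by the random reals -/
def E (k : K) (i : ℕ) : Set (K × ℕ → Bool) := {ω | ω (k, i) = true}

theorem E_meas (k : K) (i : ℕ) : MeasurableSet (E k i) := by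
  have h : Measurable fun x : K × ℕ → Bool => x (k, i) := measurable_pi_apply _
  exact h (measurableSet_singleton true)

theorem forces_cat (ι : W → K) (hι : Function.Injective ι) (hW : ¬ #W ≤ ℵ₀)
    (p : MAlg (coins (K × ℕ))) : p ∈
    (fex fun r : W → ℕ → Set (MAlg (coins (K × ℕ))) => fall fun x : ℕ → Set (MAlg (coins (K × ℕ))) =>
      fex fun w : W => fex fun N : ℕ =>
        fall fun n : ℕ => fimp (fground (N ≤ n)) (fnot (fall fun j : Fin n =>
          fiff (meets (x (Nat.pair n j))) (meets (r w (Nat.pair n j)))))) := by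
  classical
  refine mem_fex.2 fun p1 _ => ⟨p1, le_rfl, fun w i => cst (E (ι w) i), fun x => ?_⟩
  choose C hC hCV using fun n : ℕ => exists_countable (val_meas (μ := coins (K × ℕ)) (x n))
  obtain ⟨w, hw⟩ : ∃ w : W, ι w ∉ Prod.fst '' (⋃ x, C x) := by
    by_contra hcon
    push Not at hcon
    apply hW
    rw [← Cardinal.mk_univ, Cardinal.le_aleph0_iff_set_countable]
    exact (((countable_iUnion hC).image Prod.fst).preimage hι).mono fun w _ => hcon w
  refine mem_fex.2 fun q hq => ⟨q, le_rfl, w, ?_⟩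
  rw [(rep_ex fun N : ℕ => rep_all fun n : ℕ => rep_imp (rep_ground (N ≤ n)) (rep_not
    (rep_all fun j : Fin n => rep_iff (rep_meets (x (Nat.pair n j)))
      (rep_cst (E_meas (ι w) (Nat.pair n j)))))).2]
  let Bn : ℕ → Set (K × ℕ → Bool) := fun n =>
    {ω | ∀ j : Fin n, ω (ι w, Nat.pair n j) = decide (ω ∈ val (x (Nat.pair n j)))}
  have hB : ∀ n, coins (K × ℕ) (Bn n) ≤ (2⁻¹ : ℝ≥0∞) ^ n := by
    intro n
    have h1 := coins_match (m := n) (fun j : Fin n => (ι w, Nat.pair n j))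
      (fun i j hij => Fin.ext (Nat.pair_eq_pair.1 (Prod.mk.inj hij).2).2) (⋃ x, C x)
      (fun i hi => hw ⟨_, hi, rfl⟩)
      (fun ω j => decide (ω ∈ val (x (Nat.pair n j)))) (fun t => by
        have h2 : {ω : K × ℕ → Bool | (fun j : Fin n => decide (ω ∈ val (x (Nat.pair n j)))) = t} =
            ⋂ j : Fin n, (if t j = true then val (x (Nat.pair n j)) else (val (x (Nat.pair n j)))ᶜ) := by
          ext ω
          simp only [mem_ofPred_eq, funext_iff, mem_iInter]
          refine forall_congr' fun j => ?_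
          cases h3 : t j <;> simp
        rw [h2]
        refine MeasurableSet.iInter fun j => ?_
        have h4 := mA_mono (subset_iUnion C (Nat.pair n j)) _ (hCV (Nat.pair n j))
        split_ifs
        · exact h4
        · exact h4.compl) Set.univ (@MeasurableSet.univ _ (mA (⋃ x, C x)))
    rw [measure_univ, one_mul, univ_inter] at h1
    exact h1
  have hsum : ∑' n, coins (K × ℕ) (Bn n) ≠ ∞ := by
    refine ne_top_of_le_ne_top ?_ (ENNReal.tsum_le_tsum hB)
    rw [ENNReal.tsum_geometric]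
    simp
  filter_upwards [ae_eventually_notMem hsum] with ω hω _
  obtain ⟨N, hN⟩ := eventually_atTop.1 hω
  refine ⟨N, fun n hn hcon => hN n hn fun j => ?_⟩
  have h5 := hcon j
  rw [Bool.eq_iff_iff, decide_eq_true_iff]
  exact h5.symm

theorem null_lemma (V : ℕ → List Bool → Set (K × ℕ → Bool)) (hV : ∀ n s, MeasurableSet (V n s))
    (C : ℕ × List Bool → Set (K × ℕ)) (hCV : ∀ x, MeasurableSet[mA (C x)] (V x.1 x.2)) {k : K}
    (hk : k ∉ Prod.fst '' (⋃ x, C x))
    (hbd : ∀ᵐ ω ∂(coins (K × ℕ)), ∀ n, ∀ T : Finset (List Bool), (∀ s ∈ T, ω ∈ V n s) →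
      ∑ s ∈ T, (2⁻¹ : ℝ≥0∞) ^ s.length ≤ (2⁻¹ : ℝ≥0∞) ^ n) :
    ∀ᵐ ω ∂(coins (K × ℕ)), ∃ n, ∀ s, ω ∈ V n s → ¬ ∀ i : Fin s.length, ω (k, (i : ℕ)) = s.get i := by
  classical
  let R : List Bool → Set (K × ℕ → Bool) := fun s => {ω | ∀ i : Fin s.length, ω (k, i) = s.get i}
  have hVR : ∀ n s, coins (K × ℕ) (V n s ∩ R s) ≤ coins (K × ℕ) (V n s) * (2⁻¹ : ℝ≥0∞) ^ s.length := by
    intro n s
    refine coins_match (m := s.length) (fun i => (k, (i : ℕ)))
      (fun i j hij => Fin.ext (Prod.mk.inj hij).2) (⋃ x, C x) (fun i hi => hk ⟨_, hi, rfl⟩)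
      (fun _ i => s.get i) (fun t => ?_) (V n s)
      (mA_mono (subset_iUnion C (n, s)) _ (hCV (n, s)))
    by_cases h : (fun i => s.get i) = t
    · simp only [h, ofPred_true]
      exact @MeasurableSet.univ _ (mA (⋃ x, C x))
    · simp only [h, ofPred_false]
      exact @MeasurableSet.empty _ (mA (⋃ x, C x))
  have hsum : ∀ n, ∑' s : List Bool, coins (K × ℕ) (V n s) * (2⁻¹ : ℝ≥0∞) ^ s.length ≤
      (2⁻¹ : ℝ≥0∞) ^ n := by
    intro n
    have h1 : ∀ s : List Bool, coins (K × ℕ) (V n s) * (2⁻¹ : ℝ≥0∞) ^ s.length =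
        ∫⁻ ω, (V n s).indicator (fun _ => (2⁻¹ : ℝ≥0∞) ^ s.length) ω ∂(coins (K × ℕ)) := by
      intro s
      rw [lintegral_indicator (hV n s), setLIntegral_const, mul_comm]
    simp only [h1]
    rw [← lintegral_tsum fun s => (measurable_const.indicator (hV n s)).aemeasurable]
    have h2 : ∀ᵐ ω ∂(coins (K × ℕ)), ∑' s : List Bool,
        (V n s).indicator (fun _ => (2⁻¹ : ℝ≥0∞) ^ s.length) ω ≤ (2⁻¹ : ℝ≥0∞) ^ n := by
      filter_upwards [hbd] with ω hω
      rw [ENNReal.tsum_eq_iSup_sum]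
      refine iSup_le fun F => ?_
      have h3 := hω n (F.filter fun s => ω ∈ V n s) fun s hs => (Finset.mem_filter.1 hs).2
      refine le_trans (le_of_eq ?_) h3
      rw [Finset.sum_filter]
      refine Finset.sum_congr rfl fun s _ => ?_
      simp only [Set.indicator_apply]
    refine (lintegral_mono_ae h2).trans ?_
    rw [lintegral_const, measure_univ, mul_one]
  let Bad : ℕ → Set (K × ℕ → Bool) := fun n => ⋃ s, V n s ∩ R s
  have hBadm : ∀ n, coins (K × ℕ) (Bad n) ≤ (2⁻¹ : ℝ≥0∞) ^ n := fun n =>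
    (measure_iUnion_le _).trans ((ENNReal.tsum_le_tsum fun s => hVR n s).trans (hsum n))
  have hBad0 : coins (K × ℕ) (⋂ n, Bad n) = 0 := by
    by_contra hne
    obtain ⟨n, hn⟩ := ENNReal.exists_inv_two_pow_lt hne
    exact absurd ((measure_mono (iInter_subset Bad n)).trans (hBadm n)) (not_le.2 hn)
  filter_upwards [measure_eq_zero_iff_ae_notMem.1 hBad0] with ω hω
  rw [mem_iInter, not_forall] at hω
  obtain ⟨n, hn⟩ := hω
  exact ⟨n, fun s hs hcon => hn (mem_iUnion.2 ⟨s, hs, hcon⟩)⟩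

theorem forces_cov (hW : ℵ₀ ≤ #W) (hK : #W < #K) (p : MAlg (coins (K × ℕ))) : p ∈
    (fall fun c : W → ℕ → List Bool → Set (MAlg (coins (K × ℕ))) => fimp
      (fall fun w : W => fall fun n : ℕ => fall fun T : Finset (List Bool) =>
        fimp (fall fun s : List Bool => fimp (fground (s ∈ T)) (meets (c w n s)))
          (fground (∑ s ∈ T, (2⁻¹ : ℝ≥0∞) ^ s.length ≤ (2⁻¹ : ℝ≥0∞) ^ n)))
      (fex fun x : ℕ → Set (MAlg (coins (K × ℕ))) => fall fun w : W => fex fun n : ℕ =>
        fall fun s : List Bool => fimp (meets (c w n s)) (fnot (fall fun i : Fin s.length =>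
          fiff (meets (x i)) (fground (s.get i = true)))))) := by
  classical
  intro c
  rw [mem_fimp]
  intro q _ hc
  refine ⟨q, le_rfl, ?_⟩
  let V : W → ℕ → List Bool → Set (K × ℕ → Bool) := fun w n s => val (c w n s) ∩ q.s
  have hV : ∀ w n s, MeasurableSet (V w n s) := fun w n s => (val_meas _).inter q.meas
  choose C hC hCV using fun (w : W) (x : ℕ × List Bool) => exists_countable (hV w x.1 x.2)
  obtain ⟨k, hk⟩ : ∃ k : K, ∀ w, k ∉ Prod.fst '' (⋃ x, C w x) := by
    by_contra hcon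
    push Not at hcon
    have h1 : (⋃ w : W, Prod.fst '' (⋃ x, C w x)) = (Set.univ : Set K) := by
      refine eq_univ_of_forall fun k => ?_
      obtain ⟨w, hw⟩ := hcon k
      exact mem_iUnion.2 ⟨w, hw⟩
    have h2 : #(⋃ w : W, Prod.fst '' (⋃ x, C w x)) ≤ #W * ℵ₀ := by
      refine Cardinal.mk_iUnion_le_sum_mk.trans ?_
      rw [← Cardinal.sum_const']
      refine Cardinal.sum_le_sum _ _ fun w => ?_
      rw [Cardinal.le_aleph0_iff_set_countable]
      exact (countable_iUnion (hC w)).image _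
    rw [h1, Cardinal.mk_univ, Cardinal.mul_eq_left hW hW Cardinal.aleph0_ne_zero] at h2
    exact absurd hK (not_lt.2 h2)
  refine mem_fex.2 fun q1 hq1 => ⟨q1, le_rfl, fun i => cst (E k i), fun w => ?_⟩
  rw [(rep_ex fun n : ℕ => rep_all fun s : List Bool => rep_imp (rep_meets (c w n s)) (rep_not
    (rep_all fun i : Fin s.length => rep_iff (rep_cst (E_meas k i))
      (rep_ground (s.get i = true))))).2]
  have hq := hc w
  rw [(rep_all fun n : ℕ => rep_all fun T : Finset (List Bool) => rep_imp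
    (rep_all fun s : List Bool => rep_imp (rep_ground (s ∈ T)) (rep_meets (c w n s)))
    (rep_ground (∑ s ∈ T, (2⁻¹ : ℝ≥0∞) ^ s.length ≤ (2⁻¹ : ℝ≥0∞) ^ n))).2] at hq
  have hbd : ∀ᵐ ω ∂(coins (K × ℕ)), ∀ n, ∀ T : Finset (List Bool), (∀ s ∈ T, ω ∈ V w n s) →
      ∑ s ∈ T, (2⁻¹ : ℝ≥0∞) ^ s.length ≤ (2⁻¹ : ℝ≥0∞) ^ n := by
    filter_upwards [hq] with ω hω n T hT
    rcases T.eq_empty_or_nonempty with rfl | ⟨s0, hs0⟩
    · simp
    · exact hω (hT s0 hs0).2 n T fun s hs => (hT s hs).1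
  filter_upwards [null_lemma (V w) (hV w) (C w) (hCV w) (hk w) hbd, le_iff_ae.1 hq1] with ω h1 h2 h3
  obtain ⟨n, hn⟩ := h1
  refine ⟨n, fun s hs hcon => hn s ⟨hs, h2 h3⟩ fun i => ?_⟩
  rw [Bool.eq_iff_iff]
  exact hcon i

/-- The hypothesis is forced by adding random reals. -/
theorem forced (hW : ℵ₀ < #W) (hK : #W < #K)
    (hb : ∀ F : W → ℕ → ℕ, ∃ g : ℕ → ℕ, ∀ w, ∀ᶠ n in atTop, F w n ≤ g n)
    (p : MAlg (coins (K × ℕ))) : p ∈ HypN (MAlg (coins (K × ℕ))) W := by
  obtain ⟨ι⟩ := (Cardinal.le_def _ _).1 hK.le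
  refine ⟨?_, forces_bdd' hb p, forces_cat ι ι.injective (not_le.2 hW) p,
    forces_cov hW.le hK p⟩
  change Nonempty W
  rw [← Cardinal.mk_ne_zero_iff]
  exact (Cardinal.aleph0_pos.trans hW).ne'

end

end Pool.Agent.R582.SS
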