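import Mathlib
import Pool.Agent.R582.SS.Force
import Pool.Agent.R582.ZZ.NonNull

set_option autoImplicit false

/-!
# The hypothesis implies `cov(𝓜) < 𝔰𝔰_c`
-/

namespace Pool.Agent.R582.SS

open Cardinal Set Filter MeasureTheory Topology
open scoped ENNReal
open Pool.Agent.R582.Rand (coins coins_cyl)
open Pool.Agent.R582.ZZ (Cyl cyl_meas coins_Cyl mem_Cyl_ofFn eq_ofFn exists_cyl)

theorem exists_code {A : Set (ℕ → Bool)} (h0 : coins ℕ A = 0) :
    ∃ c : ℕ → List Bool → Prop,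
      (∀ n, ∀ T : Finset (List Bool), (∀ s, s ∈ T → c n s) →
        ∑ s ∈ T, (2⁻¹ : ℝ≥0∞) ^ s.length ≤ (2⁻¹ : ℝ≥0∞) ^ n) ∧
      ∀ x ∈ A, ∀ n, ∃ s, c n s ∧ x ∈ Cyl s := by
  classical
  have h1 : ∀ n : ℕ, ∃ U, A ⊆ U ∧ IsOpen U ∧ coins ℕ U < (2⁻¹ : ℝ≥0∞) ^ n := by
    intro n
    refine Set.exists_isOpen_lt_of_lt _ _ ?_
    rw [h0]
    exact ENNReal.pow_pos (by simp) n
  choose U hU hUo hUm using h1
  let c : ℕ → List Bool → Prop := fun n s => Cyl s ⊆ U n ∧
    ∀ k, ∀ x ∈ Cyl s, k < s.length → ¬ Cyl (List.ofFn fun i : Fin k => x i) ⊆ U n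
  refine ⟨c, fun n T hT => ?_, fun x hxA n => ?_⟩
  · have hd : (T : Set (List Bool)).PairwiseDisjoint Cyl := by
      intro s hs t ht hne
      rw [Function.onFun, Set.disjoint_left]
      intro x hxs hxt
      apply hne
      have h2 := hT s hs
      have h3 := hT t ht
      have h4 : s.length = t.length := by
        rcases lt_trichotomy s.length t.length with h | h | h
        · exact absurd (by rw [← eq_ofFn hxs]; exact h2.1) (h3.2 s.length x hxt h)
        · exact h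
        · exact absurd (by rw [← eq_ofFn hxt]; exact h3.1) (h2.2 t.length x hxs h)
      rw [eq_ofFn hxs, eq_ofFn hxt, h4]
    calc ∑ s ∈ T, (2⁻¹ : ℝ≥0∞) ^ s.length = ∑ s ∈ T, coins ℕ (Cyl s) := by
          refine Finset.sum_congr rfl fun s _ => ?_
          rw [coins_Cyl]
      _ = coins ℕ (⋃ s ∈ T, Cyl s) := (measure_biUnion_finset hd fun s _ => cyl_meas s).symm
      _ ≤ coins ℕ (U n) := measure_mono (iUnion₂_subset fun s hs => (hT s hs).1)
      _ ≤ (2⁻¹ : ℝ≥0∞) ^ n := (hUm n).le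
  · have hx : x ∈ U n := hU n hxA
    have hk := exists_cyl (hUo n) hx
    refine ⟨List.ofFn fun i : Fin (Nat.find hk) => x i, ⟨Nat.find_spec hk, fun k y hy hk' hsub => ?_⟩,
      mem_Cyl_ofFn x _⟩
    have hk2 : k < Nat.find hk := by simpa using hk'
    refine Nat.find_min hk hk2 ?_
    have : (List.ofFn fun i : Fin k => x i) = List.ofFn fun i : Fin k => y i := by
      congr 1
      funext i
      have := hy ⟨i, by simpa using i.2.trans hk2⟩
      simp only [List.get_eq_getElem, List.getElem_ofFn] at this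
      exact this.symm
    rw [this]
    exact hsub

theorem meagre_match (r : ℕ → Prop) :
    IsMeagre {x : ℕ → Bool | ∃ N, ∀ n, N ≤ n →
      ¬ ∀ j : Fin n, (x (Nat.pair n j) = true ↔ r (Nat.pair n j))} := by
  classical
  let U : ℕ → Set (ℕ → Bool) := fun N => ⋃ n : ℕ, ⋃ _ : N ≤ n, ⋂ j : Fin n,
    {x | x (Nat.pair n j) = true ↔ r (Nat.pair n j)}
  have hUo : ∀ N, IsOpen (U N) := by
    intro N
    refine isOpen_iUnion fun n => isOpen_iUnion fun _ => isOpen_iInter_of_finite fun j => ?_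
    have : {x : ℕ → Bool | x (Nat.pair n j) = true ↔ r (Nat.pair n j)} =
      (fun x : ℕ → Bool => x (Nat.pair n j)) ⁻¹' {b | b = true ↔ r (Nat.pair n j)} := rfl
    rw [this]
    exact (isOpen_discrete _).preimage (continuous_apply _)
  have hUd : ∀ N, Dense (U N) := by
    intro N
    rw [dense_iff_inter_open]
    rintro V hV ⟨x, hx⟩
    obtain ⟨k, hk⟩ := exists_cyl hV hx
    let y : ℕ → Bool := fun i => if i < k then x i else decide (r i)
    refine ⟨y, hk fun i => ?_, ?_⟩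
    · have hi : (i : ℕ) < k := by simpa using i.2
      simp [y, hi]
    · simp only [U, mem_iUnion, mem_iInter, mem_ofPred_eq]
      refine ⟨max N k, le_max_left _ _, fun j => ?_⟩
      have h1 : ¬ Nat.pair (max N k) j < k := by
        have h2 := Nat.left_le_pair (max N k) j
        have h3 := le_max_right N k
        omega
      simp [y, h1]
  have h : (⋂ N, U N) ∈ residual (ℕ → Bool) :=
    countable_iInter_mem.2 fun N => residual_of_dense_open (hUo N) (hUd N)
  refine mem_of_superset h fun x hx hcon => ?_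
  obtain ⟨N, hN⟩ := hcon
  have h2 := mem_iInter.1 hx N
  simp only [U, mem_iUnion, mem_iInter, mem_ofPred_eq] at h2
  obtain ⟨n, hn, h3⟩ := h2
  exact hN n hn h3

variable {W : Type}

theorem Hyp.notDom (h : Hyp W) : NotDom W := by
  intro f
  obtain ⟨g, hg, hg2⟩ := h.2.1 (fun w n k => f w n = k) fun w n => ⟨_, rfl⟩
  choose G hG using hg
  refine ⟨G, fun w => ?_⟩
  obtain ⟨N, hN⟩ := hg2 w
  refine (eventually_atTop.2 ⟨N, fun n hn => ?_⟩).frequently
  obtain ⟨k, hk, hk2⟩ := hN n hn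
  rw [hk2]
  exact hG n k hk

theorem Hyp.notCov (h : Hyp W) : NotCov W := by
  classical
  intro A hA
  choose c hc hc2 using fun w => exists_code (hA w)
  obtain ⟨x, hx⟩ := h.2.2.2 c hc
  refine ⟨fun i => decide (x i), fun w hw => ?_⟩
  obtain ⟨n, hn⟩ := hx w
  obtain ⟨s, hs, hs2⟩ := hc2 w _ hw n
  refine hn s hs fun i => ?_
  rw [← hs2 i, decide_eq_true_iff]

theorem Hyp.covM_le (h : Hyp W) : covM ≤ #W := by
  obtain ⟨r, hr⟩ := h.2.2.1
  let M : W → Set (ℕ → Bool) := fun w => {x : ℕ → Bool | ∃ N, ∀ n, N ≤ n →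
      ¬ ∀ j : Fin n, (x (Nat.pair n j) = true ↔ r w (Nat.pair n j))}
  have h1 : #(range M) ∈ {κ : Cardinal.{0} | ∃ 𝓜 : Set (Set (ℕ → Bool)), #𝓜 = κ ∧
      (∀ M ∈ 𝓜, IsMeagre M) ∧ ⋃₀ 𝓜 = Set.univ} := by
    refine ⟨range M, rfl, ?_, ?_⟩
    · rintro _ ⟨w, rfl⟩
      exact meagre_match (r w)
    · refine eq_univ_of_forall fun x => ?_
      obtain ⟨w, hw⟩ := hr fun i => x i = true
      exact ⟨M w, ⟨w, rfl⟩, hw⟩
  exact (csInf_le' h1).trans Cardinal.mk_range_le

theorem Hyp.lt_ssc (h : Hyp W) : #W < ssc :=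
  have := h.1
  SS.lt_ssc h.notDom h.notCov

theorem Hyp.covM_lt (h : Hyp W) : covM < ssc := h.covM_le.trans_lt h.lt_ssc

end Pool.Agent.R582.SS
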